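import Pool.Agent.R289.MB.ST
import Pool.Agent.R289.MB.UB
import Pool.Agent.R289.MB.FS
import Pool.Agent.R289.MB.LM
import Pool.Agent.R289.MB.AL
import Pool.Agent.R289.MB.CL
import Pool.Agent.R289.MB.KE
import Pool.Agent.R289.MB.DE
import Pool.Agent.R289.MB.PR
import Pool.Agent.R289.MB.CO
import Pool.Agent.R289.MB.O1
import Pool.Agent.R289.MB.SP
import Pool.Agent.R289.MB.MK
import Pool.Agent.R289.MB.GL

set_option autoImplicit false

/-!
# Invariant Markushevich bases for separable projectional resolutions (MP_14477d_an)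
-/

namespace Pool.Agent.Results.MP_14477d_an.InvariantMarkushevichBasis

open MB289 Set

universe u v

/-- **Main result.** Let `X` be a nonseparable Banach space over `ℝ` or `ℂ` with a projectional
skeleton `(P s)` (indexed by any directed partially ordered set `Γ` in which increasing sequences
have suprema) and `κ = dens X`. Then there are a Markushevich basis `(e i, f i)` of `X` and a
separable projectional resolution of the identity `(Q α)`, `α ≤ κ`, such that each `Q α` maps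
every `e i` to `e i` or to `0`; in particular `Q α` maps `{e i}` into `{e i} ∪ {0}`. -/
theorem result (𝕜 : Type) [RCLike 𝕜] (X : Type u) [NormedAddCommGroup X] [NormedSpace 𝕜 X]
    [CompleteSpace X] (hX : ¬ TopologicalSpace.SeparableSpace X)
    (Γ : Type v) [PartialOrder Γ] (P : Γ → X →L[𝕜] X) (hP : IsSkeleton P) :
    ∃ (I : Type u) (e : I → X) (f : I → X →L[𝕜] 𝕜) (Q : Ordinal.{u} → X →L[𝕜] X),
      IsMBasis e f ∧ IsSPRI (dens X) Q ∧
      (∀ α ≤ (dens X).ord, ∀ i, Q α (e i) = e i ∨ Q α (e i) = 0) ∧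
      ∀ α ≤ (dens X).ord, Q α '' range e ⊆ range e ∪ {0} := by
  obtain ⟨D, hD1, hD2⟩ := dens_spec X
  have hκ : Cardinal.aleph0 ≤ dens X := by
    by_contra hcon
    push Not at hcon
    apply hX
    refine ⟨⟨D, ?_, hD1⟩⟩
    rw [← Cardinal.le_aleph0_iff_set_countable, hD2]
    exact hcon.le
  have hST : S_ST.{u, v} := t_ST t_FS t_FS t_LM t_AL (t_KE t_CL) t_DE t_PR t_CO t_O1 t_O2
  obtain ⟨Q, hQ⟩ := t_SP 𝕜 X (dens X) hκ
    (hST 𝕜 X (dens X) hκ (t_UB 𝕜 X Γ P hP) ⟨D, hD1, hD2.le⟩)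
  obtain ⟨I, e, f, hM, hinv⟩ := t_GL t_MK 𝕜 X (dens X) Q hκ hQ
  refine ⟨I, e, f, Q, hM, hQ, hinv, ?_⟩
  rintro α hα _ ⟨_, ⟨i, rfl⟩, rfl⟩
  rcases hinv α hα i with h | h
  · left; rw [h]; exact ⟨i, rfl⟩
  · right; exact h

end Pool.Agent.Results.MP_14477d_an.InvariantMarkushevichBasis
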